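import Pool.Agent.H502Z.Iso.Proj

set_option autoImplicit false

open MeasureTheory Set Filter Topology
open scoped Pointwise

namespace Pool.Agent.H502Z.Iso

/-- coordinate box -/
def box (p q r : ℝ) : Set E3 := {x | |x 0| ≤ p ∧ |x 1| ≤ q ∧ |x 2| ≤ r}

theorem box_eq (p q r : ℝ) :
    box p q r = WithLp.toLp 2 '' Icc (![-p, -q, -r] : Fin 3 → ℝ) ![p, q, r] := by
  ext x
  constructor
  · rintro ⟨h1, h2, h3⟩
    rw [abs_le] at h1 h2 h3
    refine ⟨x.ofLp, ?_, rfl⟩
    constructor <;> intro j <;> fin_cases j <;> simp [h1, h2, h3]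
  · rintro ⟨y, hy, rfl⟩
    exact ⟨abs_le.2 ⟨hy.1 0, hy.2 0⟩, abs_le.2 ⟨hy.1 1, hy.2 1⟩, abs_le.2 ⟨hy.1 2, hy.2 2⟩⟩

theorem box_compact (p q r : ℝ) : IsCompact (box p q r) := by
  rw [box_eq]
  exact isCompact_Icc.image (PiLp.continuous_toLp 2 _)

theorem box_convex (p q r : ℝ) : Convex ℝ (box p q r) := by
  rw [box_eq]
  exact (convex_Icc _ _).linear_image (WithLp.linearEquiv 2 ℝ (Fin 3 → ℝ)).symm.toLinearMap

theorem box_vol {p q r : ℝ} (hp : 0 ≤ p) (hq : 0 ≤ q) (hr : 0 ≤ r) :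
    volume.real (box p q r) = 8 * p * q * r := by
  have : box p q r = WithLp.ofLp ⁻¹' Icc (![-p, -q, -r] : Fin 3 → ℝ) ![p, q, r] := by
    rw [box_eq]
    ext x
    constructor
    · rintro ⟨y, hy, rfl⟩
      exact hy
    · exact fun h => ⟨_, h, rfl⟩
  rw [this, Measure.real, (PiLp.volume_preserving_ofLp (Fin 3)).measure_preimage
    measurableSet_Icc.nullMeasurableSet, Real.volume_Icc_pi_toReal]
  · simp [Fin.prod_univ_three]
    ring
  · intro j
    fin_cases j <;> simp <;> linarith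

theorem coord_le (x : E3) (k : Fin 3) : |x k| ≤ ‖x‖ := by
  simpa using PiLp.norm_apply_le x k

theorem clamp {p t s : ℝ} (hp : 0 ≤ p) (ht : 0 ≤ t) (hs : |s| ≤ p + t) :
    ∃ d, |d| ≤ t ∧ |s - d| ≤ p := by
  rw [abs_le] at hs
  rcases le_total s (-p) with h | h
  · exact ⟨s + p, abs_le.2 ⟨by linarith, by linarith⟩, by simp [abs_of_nonneg hp]⟩
  rcases le_total s p with h' | h'
  · exact ⟨0, by simpa, by simpa using abs_le.2 ⟨h, h'⟩⟩
  · exact ⟨s - p, abs_le.2 ⟨by linarith, by linarith⟩, by simp [abs_of_nonneg hp]⟩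

theorem box_up {p q r t : ℝ} (hp : 0 ≤ p) (hq : 0 ≤ q) (hr : 0 ≤ r) (ht : 0 ≤ t) :
    volume.real (box p q r + Metric.closedBall (0 : E3) t) ≤ 8 * (p + t) * (q + t) * (r + t) := by
  rw [← box_vol (by linarith) (by linarith) (by linarith)]
  refine measureReal_mono ?_ (box_compact _ _ _).measure_lt_top.ne
  rintro _ ⟨x, ⟨h1, h2, h3⟩, v, hv, rfl⟩
  have hv' : ∀ k, |v k| ≤ t := fun k => (coord_le v k).trans (by simpa using hv)
  exact ⟨(abs_add_le _ _).trans (add_le_add h1 (hv' 0)),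
    (abs_add_le _ _).trans (add_le_add h2 (hv' 1)), (abs_add_le _ _).trans (add_le_add h3 (hv' 2))⟩

theorem box_low {p q r t : ℝ} (hp : 0 ≤ p) (hq : 0 ≤ q) (hr : 0 ≤ r) (ht : 0 ≤ t) :
    8 * p * q * r + 8 * t * (q * r + p * r + p * q) ≤
      volume.real (box p q r + Metric.closedBall (0 : E3) t) := by
  have key : ∀ (x : E3) (k : Fin 3) (d : ℝ), |d| ≤ t →
      x - EuclideanSpace.single k d ∈ box p q r → x ∈ box p q r + Metric.closedBall (0 : E3) t :=
    fun x k d hd h => ⟨_, h, EuclideanSpace.single k d, by simpa using hd, by simp⟩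
  have sub : (box (p + t) q r ∪ box p (q + t) r) ∪ box p q (r + t) ⊆
      box p q r + Metric.closedBall (0 : E3) t := by
    rintro x ((⟨h1, h2, h3⟩ | ⟨h1, h2, h3⟩) | ⟨h1, h2, h3⟩)
    · obtain ⟨d, hd, h⟩ := clamp hp ht h1
      exact key x 0 d hd ⟨by simpa using h, by simpa using h2, by simpa using h3⟩
    · obtain ⟨d, hd, h⟩ := clamp hq ht h2
      exact key x 1 d hd ⟨by simpa using h1, by simpa using h, by simpa using h3⟩
    · obtain ⟨d, hd, h⟩ := clamp hr ht h3
      exact key x 2 d hd ⟨by simpa using h1, by simpa using h2, by simpa using h⟩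
  have s1 : box (p + t) q r ∩ box p (q + t) r ⊆ box p q r :=
    fun x hx => ⟨hx.2.1, hx.1.2.1, hx.1.2.2⟩
  have s2 : (box (p + t) q r ∪ box p (q + t) r) ∩ box p q (r + t) ⊆ box p q r := by
    rintro x ⟨h | h, h'⟩ <;> exact ⟨h'.1, h'.2.1, h.2.2⟩
  have fin : ∀ a b c, volume (box a b c) ≠ ⊤ := fun a b c => (box_compact a b c).measure_lt_top.ne
  have u1 := measureReal_union_add_inter (μ := volume) (s := box (p + t) q r)
    (box_compact p (q + t) r).measurableSet (fin _ _ _) (fin _ _ _)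
  have u2 := measureReal_union_add_inter (μ := volume) (s := box (p + t) q r ∪ box p (q + t) r)
    (box_compact p q (r + t)).measurableSet
    ((box_compact _ _ _).union (box_compact _ _ _)).measure_lt_top.ne (fin _ _ _)
  have m1 := measureReal_mono (μ := volume) s1 (fin _ _ _)
  have m2 := measureReal_mono (μ := volume) s2 (fin _ _ _)
  have m3 := measureReal_mono (μ := volume) sub
    ((box_compact _ _ _).add (isCompact_closedBall 0 t)).measure_lt_top.ne
  rw [box_vol (by linarith) hq hr, box_vol hp (by linarith) hr] at u1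
  rw [box_vol hp hq (by linarith)] at u2
  rw [box_vol hp hq hr] at m1 m2
  nlinarith

theorem box_lim {p q r : ℝ} (hp : 0 ≤ p) (hq : 0 ≤ q) (hr : 0 ≤ r) :
    Tendsto (fun t : ℝ => (volume.real (box p q r + Metric.closedBall (0 : E3) t)
      - volume.real (box p q r)) / (2 * t)) (𝓝[>] 0) (𝓝 (4 * (q * r + p * r + p * q))) := by
  have c : Tendsto (fun t : ℝ => 4 * (q * r + p * r + p * q) + 4 * (p + q + r) * t + 4 * t ^ 2)
      (𝓝[>] 0) (𝓝 (4 * (q * r + p * r + p * q))) := by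
    refine tendsto_nhdsWithin_of_tendsto_nhds (Continuous.tendsto' (by fun_prop) _ _ (by simp))
  refine tendsto_of_tendsto_of_tendsto_of_le_of_le' tendsto_const_nhds c ?_ ?_
  · filter_upwards [self_mem_nhdsWithin] with t ht
    have ht : 0 < t := ht
    rw [le_div_iff₀ (by linarith), box_vol hp hq hr]
    linarith [box_low hp hq hr ht.le]
  · filter_upwards [self_mem_nhdsWithin] with t ht
    have ht : 0 < t := ht
    rw [div_le_iff₀ (by linarith), box_vol hp hq hr]
    linarith [box_up hp hq hr ht.le]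

theorem exists_basis (u : E3) (hu : ‖u‖ = 1) :
    ∃ b : OrthonormalBasis (Fin 3) ℝ E3, b 0 = u ∧ b 1 2 = 0 := by
  obtain ⟨w, hw, huw, hw2⟩ : ∃ w : E3, w ≠ 0 ∧ inner ℝ u w = 0 ∧ w 2 = 0 := by
    by_cases h : u 0 = 0
    · refine ⟨EuclideanSpace.single 0 1, by simp, ?_, by simp⟩
      simp [EuclideanSpace.inner_single_right, h]
    · refine ⟨WithLp.toLp 2 ![u 1, -u 0, 0], fun e => h ?_, ?_, by simp⟩
      · simpa using congrArg (fun z : E3 => z 1) e
      · simp [PiLp.inner_apply, Fin.sum_univ_three]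
        ring
  have hn : ‖(‖w‖⁻¹ : ℝ) • w‖ = 1 := norm_smul_inv_norm hw
  obtain ⟨b, hb⟩ := Orthonormal.exists_orthonormalBasis_extension_of_card_eq (𝕜 := ℝ)
    (E := E3) (ι := Fin 3) (by simp) (v := ![u, (‖w‖⁻¹ : ℝ) • w, 0]) (s := {0, 1}) (by
      rw [orthonormal_iff_ite]
      rintro ⟨i, rfl | rfl⟩ ⟨j, rfl | rfl⟩
      · simp [hu]
      · simp [inner_smul_right, huw]
      · simp [inner_smul_left, real_inner_comm, huw]
      · simp [hn])
  refine ⟨b, by simpa using hb 0 (by simp), ?_⟩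
  rw [hb 1 (by simp)]
  simp [hw2]

end Pool.Agent.H502Z.Iso
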