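import Mathlib

set_option autoImplicit false

open MeasureTheory Set
open scoped Pointwise

namespace Pool.Agent.H502Z.Iso

abbrev E3 := EuclideanSpace ℝ (Fin 3)

variable (b : OrthonormalBasis (Fin 3) ℝ E3)

/-- segment along a basis vector -/
def seg (i : Fin 3) (a c : ℝ) : Set E3 := (fun s : ℝ => s • b i) '' Icc a c

/-- the two other coordinates -/
noncomputable def pr (i : Fin 3) (x : E3) : Fin 2 → ℝ := fun j => inner ℝ (b (i.succAbove j)) x

noncomputable def sg (i : Fin 3) (p : ℝ × (Fin 2 → ℝ)) : E3 :=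
  b.repr.symm (WithLp.toLp 2 ((MeasurableEquiv.piFinSuccAbove (fun _ => ℝ) i).symm p))

theorem sg_mp (i : Fin 3) : MeasurePreserving (sg b i) volume volume :=
  b.measurePreserving_repr_symm.comp ((PiLp.volume_preserving_toLp (Fin 3)).comp
    (volume_preserving_piFinSuccAbove (fun _ => ℝ) i).symm)

theorem inner_sg (i k : Fin 3) (p : ℝ × (Fin 2 → ℝ)) :
    inner ℝ (b k) (sg b i p) = (i.insertNth p.1 p.2 : Fin 3 → ℝ) k := by
  rw [← b.repr_apply_apply]
  simp [sg, Fin.insertNthEquiv]

theorem ext_b {x y : E3} (h : ∀ k, inner ℝ (b k) x = inner ℝ (b k) y) : x = y := by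
  apply b.repr.injective
  ext k
  rw [b.repr_apply_apply, b.repr_apply_apply, h]

theorem pr_sg (i : Fin 3) (p : ℝ × (Fin 2 → ℝ)) : pr b i (sg b i p) = p.2 := by
  ext j
  simp [pr, inner_sg]

theorem inner_bb (i k : Fin 3) : inner ℝ (b k) (b i) = if k = i then 1 else 0 :=
  orthonormal_iff_ite.1 b.orthonormal k i

theorem sg_add (i : Fin 3) (s r : ℝ) (y : Fin 2 → ℝ) :
    sg b i (s + r, y) = sg b i (s, y) + r • b i := by
  refine ext_b b fun k => ?_
  rw [inner_add_right, inner_smul_right, inner_sg, inner_sg, inner_bb]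
  refine i.succAboveCases ?_ (fun j => ?_) k
  · simp
  · simp [Fin.succAbove_ne]

theorem sg_pr (i : Fin 3) (x : E3) : sg b i (inner ℝ (b i) x, pr b i x) = x := by
  refine ext_b b fun k => ?_
  rw [inner_sg]
  refine i.succAboveCases ?_ (fun j => ?_) k
  · simp
  · simp [pr]

theorem pr_cont (i : Fin 3) : Continuous (pr b i) := by
  unfold pr
  fun_prop

theorem seg_compact (i : Fin 3) (a c : ℝ) : IsCompact (seg b i a c) :=
  isCompact_Icc.image (by fun_prop)

theorem seg_convex (i : Fin 3) (a c : ℝ) : Convex ℝ (seg b i a c) :=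
  (convex_Icc a c).linear_image (LinearMap.toSpanSingleton ℝ E3 (b i))

theorem vol_fib (i : Fin 3) {Y : Set E3} (hY : MeasurableSet Y) :
    volume Y = ∫⁻ y : Fin 2 → ℝ, volume {s : ℝ | sg b i (s, y) ∈ Y} := by
  rw [← (sg_mp b i).measure_preimage hY.nullMeasurableSet, Measure.volume_eq_prod,
    Measure.prod_apply_symm ((sg_mp b i).measurable hY)]
  rfl

theorem cav (i : Fin 3) {X : Set E3} (hX : IsCompact X) (hc : Convex ℝ X) {a c : ℝ}
    (hac : a ≤ c) :
    volume (X + seg b i a c) = volume X + ENNReal.ofReal (c - a) * volume (pr b i '' X) := by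
  have hm : MeasurableSet (pr b i '' X) := (hX.image (pr_cont b i)).measurableSet
  rw [vol_fib b i (hX.add (seg_compact b i a c)).measurableSet, vol_fib b i hX.measurableSet,
    ← lintegral_indicator_const hm, ← lintegral_add_right _ (measurable_const.indicator hm)]
  refine lintegral_congr fun y => ?_
  have e0 : ∀ s, sg b i (s, y) = sg b i (0, y) + s • b i := fun s => by
    rw [← sg_add, zero_add]
  have e1 : {s : ℝ | sg b i (s, y) ∈ X + seg b i a c} = {s : ℝ | sg b i (s, y) ∈ X} + Icc a c := by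
    ext s
    constructor
    · rintro ⟨x, hx, _, ⟨r, hr, rfl⟩, h⟩
      refine ⟨s - r, ?_, r, hr, by simp⟩
      have : sg b i (s - r, y) = x := by
        rw [sub_eq_add_neg, sg_add, ← h]
        simp
      simpa [this] using hx
    · rintro ⟨s, hs, r, hr, rfl⟩
      exact ⟨_, hs, _, ⟨r, hr, rfl⟩, (sg_add b i s r y).symm⟩
  rw [e1]
  by_cases hy : y ∈ pr b i '' X
  · obtain ⟨x, hx, rfl⟩ := id hy
    have ne : {s : ℝ | sg b i (s, pr b i x) ∈ X}.Nonempty :=
      ⟨inner ℝ (b i) x, by simpa [sg_pr] using hx⟩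
    have cv : Convex ℝ {s : ℝ | sg b i (s, pr b i x) ∈ X} := by
      intro s hs r hr p q hp hq hpq
      have := hc hs hr hp hq hpq
      rw [e0 s, e0 r] at this
      show sg b i (_, _) ∈ X
      rw [e0]
      convert this using 1
      obtain rfl : q = 1 - p := by linarith
      simp only [smul_eq_mul]
      module
    have cp : IsCompact {s : ℝ | sg b i (s, pr b i x) ∈ X} := by
      have h1 : {s : ℝ | sg b i (s, pr b i x) ∈ X} ⊆ (fun z => inner ℝ (b i) z) '' X :=
        fun s hs => ⟨_, hs, by simp [inner_sg]⟩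
      refine (hX.image (by fun_prop)).of_isClosed_subset ?_ h1
      have : Continuous fun s : ℝ => sg b i (s, pr b i x) := by
        rw [funext e0]
        fun_prop
      exact hX.isClosed.preimage this
    have e2 := eq_Icc_of_connected_compact (cv.isConnected ne) cp
    have le : sInf {s : ℝ | sg b i (s, pr b i x) ∈ X} ≤ sSup {s : ℝ | sg b i (s, pr b i x) ∈ X} := by
      rw [← nonempty_Icc, ← e2]
      exact ne
    rw [e2, Icc_add_Icc le hac, indicator_of_mem hy, Real.volume_Icc, Real.volume_Icc,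
      ← ENNReal.ofReal_add (by linarith) (by linarith)]
    congr 1
    ring
  · have : {s : ℝ | sg b i (s, y) ∈ X} = ∅ := by
      refine eq_empty_of_forall_notMem fun s hs => hy ⟨_, hs, pr_sg b i _⟩
    simp [this, hy]

end Pool.Agent.H502Z.Iso
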