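import Pool.Agent.H502Z.Iso.Cav

set_option autoImplicit false

open MeasureTheory Set
open scoped Pointwise

namespace Pool.Agent.H502Z.Iso

variable (b : OrthonormalBasis (Fin 3) ℝ E3)

theorem cavR (i : Fin 3) {X : Set E3} (hX : IsCompact X) (hc : Convex ℝ X) {a c : ℝ}
    (hac : a ≤ c) : volume.real (X + seg b i a c) =
      volume.real X + (c - a) * volume.real (pr b i '' X) := by
  have h1 := hX.measure_lt_top (μ := volume)
  have h2 := (hX.image (pr_cont b i)).measure_lt_top (μ := volume)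
  simp only [Measure.real]
  rw [cav b i hX hc hac, ENNReal.toReal_add h1.ne (ENNReal.mul_ne_top (by simp) h2.ne),
    ENNReal.toReal_mul, ENNReal.toReal_ofReal (by linarith)]

theorem vol_rect {p q : ℝ} (hp : 0 ≤ p) (hq : 0 ≤ q) :
    volume.real (Icc (![-p, -q] : Fin 2 → ℝ) ![p, q]) = 4 * p * q := by
  rw [Measure.real, Real.volume_Icc_pi_toReal]
  · simp [Fin.prod_univ_two]
    ring
  · intro j
    fin_cases j <;> simp <;> linarith

theorem rect_le (i : Fin 3) {X : Set E3} {p q : ℝ} (hp : 0 ≤ p) (hq : 0 ≤ q)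
    (h : ∀ x ∈ X, |pr b i x 0| ≤ p ∧ |pr b i x 1| ≤ q) :
    volume.real (pr b i '' X) ≤ 4 * p * q := by
  rw [← vol_rect hp hq]
  refine measureReal_mono ?_ isCompact_Icc.measure_lt_top.ne
  rintro _ ⟨x, hx, rfl⟩
  obtain ⟨h1, h2⟩ := h x hx
  rw [abs_le] at h1 h2
  constructor <;> intro j <;> fin_cases j <;> simp [h1, h2]

theorem rect_ge (i : Fin 3) {X : Set E3} (hX : IsCompact X) {p q : ℝ} (hp : 0 ≤ p) (hq : 0 ≤ q)
    (h : ∀ s r : ℝ, |s| ≤ p → |r| ≤ q → ∃ x ∈ X, pr b i x 0 = s ∧ pr b i x 1 = r) :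
    4 * p * q ≤ volume.real (pr b i '' X) := by
  rw [← vol_rect hp hq]
  refine measureReal_mono ?_ (hX.image (pr_cont b i)).measure_lt_top.ne
  intro y hy
  obtain ⟨x, hx, h1, h2⟩ := h (y 0) (y 1) (abs_le.2 ⟨hy.1 0, hy.2 0⟩) (abs_le.2 ⟨hy.1 1, hy.2 1⟩)
  refine ⟨x, hx, ?_⟩
  ext j
  fin_cases j
  · exact h1
  · exact h2

/-- the projection along `b 0` -/
noncomputable def P (x : E3) : E3 := x - (inner ℝ (b 0) x) • b 0

theorem inner_P (k : Fin 3) (x : E3) :
    inner ℝ (b k) (P b x) = if k = 0 then 0 else inner ℝ (b k) x := by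
  rw [P, inner_sub_right, inner_smul_right, inner_bb]
  split_ifs with h <;> simp [h]

theorem P_compact {K : Set E3} (h : IsCompact K) : IsCompact (P b '' K) :=
  h.image (by unfold P; fun_prop)

theorem P_convex {K : Set E3} (h : Convex ℝ K) : Convex ℝ (P b '' K) := by
  rintro _ ⟨x, hx, rfl⟩ _ ⟨y, hy, rfl⟩ p q hp hq hpq
  refine ⟨_, h hx hy hp hq hpq, ?_⟩
  simp only [P, inner_add_right, inner_smul_right]
  module

theorem vol_cyl {K : Set E3} (hK : IsCompact K) (hc : Convex ℝ K) {a : ℝ} (ha : 0 ≤ a) :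
    volume.real (P b '' K + seg b 0 (-a) a) = 2 * a * volume.real (pr b 0 '' K) := by
  rw [cavR b 0 (P_compact b hK) (P_convex b hc) (by linarith)]
  have h1 : volume.real (P b '' K) = 0 := by
    rw [Measure.real, vol_fib b 0 (P_compact b hK).measurableSet]
    have : ∀ y : Fin 2 → ℝ, volume {s : ℝ | sg b 0 (s, y) ∈ P b '' K} = 0 := fun y => by
      refine measure_mono_null (t := {0}) ?_ (measure_singleton _)
      rintro s ⟨x, -, hx⟩
      have := inner_P b 0 x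
      rw [hx, inner_sg] at this
      simpa using this
    simp only [this, lintegral_zero, ENNReal.toReal_zero]
  have h2 : pr b 0 '' (P b '' K) = pr b 0 '' K := by
    rw [image_image]
    refine image_congr fun x _ => ?_
    ext j
    simp [pr, inner_P]
  rw [h1, h2]
  ring

theorem abs_inner_le (k : Fin 3) (x : E3) : |inner ℝ (b k) x| ≤ ‖x‖ := by
  simpa [b.orthonormal.1 k] using abs_real_inner_le_norm (b k) x

theorem upper {K : Set E3} (hK : IsCompact K) (hc : Convex ℝ K) (hR : ∀ x ∈ K, ‖x‖ ≤ 2)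
    {t : ℝ} (h0 : 0 ≤ t) (h1 : t ≤ 1) :
    volume.real (P b '' K + Metric.closedBall (0 : E3) t) ≤
      2 * t * volume.real (pr b 0 '' K) + 40 * t ^ 2 := by
  have c1 := (P_compact b hK).add (seg_compact b 0 (-t) t)
  have v1 := (P_convex b hc).add (seg_convex b 0 (-t) t)
  have c2 := c1.add (seg_compact b 1 (-t) t)
  have v2 := v1.add (seg_convex b 1 (-t) t)
  have c3 := c2.add (seg_compact b 2 (-t) t)
  have sub : P b '' K + Metric.closedBall (0 : E3) t ⊆
      P b '' K + seg b 0 (-t) t + seg b 1 (-t) t + seg b 2 (-t) t := by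
    rintro _ ⟨q, hq, v, hv, rfl⟩
    have hv' : ∀ k, inner ℝ (b k) v • b k ∈ seg b k (-t) t := fun k =>
      ⟨_, abs_le.1 ((abs_inner_le b k v).trans (by simpa using hv)), rfl⟩
    refine ⟨_, ⟨_, ⟨q, hq, _, hv' 0, rfl⟩, _, hv' 1, rfl⟩, _, hv' 2, ?_⟩
    have := b.sum_repr' v
    rw [Fin.sum_univ_three] at this
    simp only [add_assoc] at this ⊢
    rw [this]
  refine (measureReal_mono sub c3.measure_lt_top.ne).trans ?_
  rw [cavR b 2 c2 v2 (by linarith), cavR b 1 c1 v1 (by linarith), vol_cyl b hK hc h0]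
  have a1 : volume.real (pr b 1 '' (P b '' K + seg b 0 (-t) t)) ≤ 4 * t * 2 := by
    refine rect_le b 1 h0 (by norm_num) ?_
    rintro _ ⟨_, ⟨x, hx, rfl⟩, _, ⟨s, hs, rfl⟩, rfl⟩
    have := (abs_inner_le b 2 x).trans (hR x hx)
    have e0 : Fin.succAbove (1 : Fin 3) 0 = 0 := rfl
    have e1 : Fin.succAbove (1 : Fin 3) 1 = 2 := rfl
    simp only [pr, e0, e1, inner_add_right, inner_smul_right, inner_P, inner_bb]
    simpa [this] using abs_le.2 hs
  have a2 : volume.real (pr b 2 '' (P b '' K + seg b 0 (-t) t + seg b 1 (-t) t)) ≤ 4 * t * 3 := by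
    refine rect_le b 2 h0 (by norm_num) ?_
    rintro _ ⟨_, ⟨_, ⟨x, hx, rfl⟩, _, ⟨s, hs, rfl⟩, rfl⟩, _, ⟨r, hr, rfl⟩, rfl⟩
    have := abs_le.1 ((abs_inner_le b 1 x).trans (hR x hx))
    have e0 : Fin.succAbove (2 : Fin 3) 0 = 0 := rfl
    have e1 : Fin.succAbove (2 : Fin 3) 1 = 1 := rfl
    simp only [pr, e0, e1, inner_add_right, inner_smul_right, inner_P, inner_bb]
    refine ⟨by simpa using abs_le.2 hs, ?_⟩
    simp only [Fin.isValue, one_ne_zero, ↓reduceIte, mul_zero, add_zero, mul_one]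
    rw [abs_le]
    constructor <;> linarith [hr.1, hr.2]
  nlinarith

theorem lower {K : Set E3} (hK : IsCompact K) (hc : Convex ℝ K)
    (hw : ∀ r : ℝ, |r| ≤ 1 / 2 → r • b 1 ∈ K) {t : ℝ} (h0 : 0 ≤ t) :
    2 * t * volume.real (pr b 0 '' K) + t ^ 2 ≤
      volume.real (P b '' K + Metric.closedBall (0 : E3) t) := by
  have c1 := (P_compact b hK).add (seg_compact b 0 (-t) t)
  have c2 := (P_compact b hK).add (seg_compact b 0 (-(t / 2)) (t / 2))
  have v2 := (P_convex b hc).add (seg_convex b 0 (-(t / 2)) (t / 2))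
  have c3 := c2.add (seg_compact b 2 (-(t / 2)) (t / 2))
  have nb : ∀ k (s : ℝ), ‖s • b k‖ = |s| := fun k s => by simp [norm_smul, b.orthonormal.1 k]
  have sub : (P b '' K + seg b 0 (-t) t) ∪
      (P b '' K + seg b 0 (-(t / 2)) (t / 2) + seg b 2 (-(t / 2)) (t / 2)) ⊆
      P b '' K + Metric.closedBall (0 : E3) t := by
    rintro _ (⟨q, hq, _, ⟨s, hs, rfl⟩, rfl⟩ | ⟨_, ⟨q, hq, _, ⟨s, hs, rfl⟩, rfl⟩, _, ⟨r, hr, rfl⟩, rfl⟩)
    · exact ⟨q, hq, _, by simpa [nb] using abs_le.2 hs, rfl⟩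
    · refine ⟨q, hq, s • b 0 + r • b 2, ?_, (add_assoc _ _ _).symm⟩
      rw [mem_closedBall_zero_iff]
      refine (norm_add_le _ _).trans ?_
      rw [nb, nb]
      linarith [abs_le.2 hs, abs_le.2 hr]
  have sub2 : (P b '' K + seg b 0 (-t) t) ∩
      (P b '' K + seg b 0 (-(t / 2)) (t / 2) + seg b 2 (-(t / 2)) (t / 2)) ⊆
      P b '' K + seg b 0 (-(t / 2)) (t / 2) := by
    rintro _ ⟨⟨_, ⟨x, hx, rfl⟩, _, ⟨s, hs, rfl⟩, rfl⟩,
      ⟨_, ⟨_, ⟨y, hy, rfl⟩, _, ⟨s', hs', rfl⟩, rfl⟩, _, ⟨r, hr, rfl⟩, h⟩⟩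
    have := congrArg (inner ℝ (b 0)) h
    simp only [inner_add_right, inner_smul_right, inner_P, inner_bb] at this
    obtain rfl : s' = s := by simpa using this
    exact ⟨_, ⟨x, hx, rfl⟩, _, ⟨_, hs', rfl⟩, rfl⟩
  have u := measureReal_union_add_inter (μ := volume) (s := P b '' K + seg b 0 (-t) t)
    c3.measurableSet c1.measure_lt_top.ne c3.measure_lt_top.ne
  have m1 := measureReal_mono (μ := volume) sub
    ((P_compact b hK).add (isCompact_closedBall 0 t)).measure_lt_top.ne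
  have m2 := measureReal_mono (μ := volume) sub2 c2.measure_lt_top.ne
  rw [cavR b 2 c2 v2 (by linarith), vol_cyl b hK hc h0, vol_cyl b hK hc (by linarith)] at u
  rw [vol_cyl b hK hc (by linarith)] at m2
  have a1 : 4 * (t / 2) * (1 / 2) ≤
      volume.real (pr b 2 '' (P b '' K + seg b 0 (-(t / 2)) (t / 2))) := by
    refine rect_ge b 2 c2 (by linarith) (by norm_num) fun s r hs hr => ?_
    refine ⟨_, ⟨_, ⟨_, hw r hr, rfl⟩, _, ⟨s, abs_le.1 hs, rfl⟩, rfl⟩, ?_⟩
    have e0 : Fin.succAbove (2 : Fin 3) 0 = 0 := rfl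
    have e1 : Fin.succAbove (2 : Fin 3) 1 = 1 := rfl
    simp only [pr, e0, e1, inner_add_right, inner_smul_right, inner_P, inner_bb]
    simp
  nlinarith

end Pool.Agent.H502Z.Iso
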